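import Pool.Agent.L7h62.SQ.Stm

/-!
# Part EMB of project SQ
-/

set_option autoImplicit false
set_option linter.all false

namespace Pool.Agent.L7h61.SQ

open Module Pool.Agent.L7h62.SQ

theorem s_EMB : S_EMB := by
  intro K H _ _ _ _ _ _ hK φ₁ φ₂ hφ e he
  set ψ₁ : K →+* ℂ := Complex.ofRealHom.comp φ₁ with hψ₁
  set ψ₂ : K →+* ℂ := Complex.ofRealHom.comp φ₂ with hψ₂
  have hne : ψ₁ ≠ ψ₂ := by
    intro h
    apply hφ
    ext x
    have h1 : ψ₁ x = ψ₂ x := by rw [h]
    exact Complex.ofReal_injective h1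
  have hall : ∀ ψ : K →+* ℂ, ψ = ψ₁ ∨ ψ = ψ₂ := by
    intro ψ
    by_contra hcon
    push Not at hcon
    classical
    have h1 : ({ψ₁, ψ₂, ψ} : Finset (K →+* ℂ)).card = 3 := by
      rw [Finset.card_eq_three]
      exact ⟨ψ₁, ψ₂, ψ, hne, hcon.1.symm, hcon.2.symm, rfl⟩
    have h2 := Finset.card_le_univ ({ψ₁, ψ₂, ψ} : Finset (K →+* ℂ))
    rw [h1, NumberField.Embeddings.card K ℂ, hK] at h2
    omega
  have hb : ∃ g : H →+* ℂ, Over φ₂ g := by
    refine ⟨NumberField.ComplexEmbedding.lift H ψ₂, fun x => ?_⟩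
    rw [NumberField.ComplexEmbedding.lift_algebraMap_apply]
    rfl
  refine ⟨?_, hb, ?_⟩
  · intro g
    rcases hall (g.comp (algebraMap K H)) with h | h
    · left
      have h1 : (Complex.ofRealHom.comp e).comp (algebraMap K H) = g.comp (algebraMap K H) := by
        rw [h]
        ext x
        show ((e (algebraMap K H x) : ℝ) : ℂ) = ((φ₁ x : ℝ) : ℂ)
        rw [he]
      obtain ⟨σ, hσ⟩ := NumberField.ComplexEmbedding.exists_comp_symm_eq_of_comp_eq _ _ h1
      refine ⟨σ.symm, fun x => ?_⟩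
      rw [← hσ]
      rfl
    · right
      intro x
      exact congrArg (fun t : K →+* ℂ => t x) h
  · intro c hc
    obtain ⟨g, hg⟩ := hb
    refine ⟨fun x => ?_, fun u hu => ⟨fun h => ?_, fun h g' hg' => ?_⟩⟩
    · apply g.injective
      rw [hc g hg, hc g hg, Complex.conj_conj]
    · apply g.injective
      rw [hc g hg, map_inv₀]
      have h1 := h g hg
      have h2 : g u ≠ 0 := by
        rw [Ne, map_eq_zero]
        exact hu
      refine eq_inv_of_mul_eq_one_right ?_
      rw [Complex.mul_conj, Complex.normSq_eq_norm_sq, h1]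
      norm_num
    · have h1 := hc g' hg' u
      rw [h, map_inv₀] at h1
      have h2 : g' u ≠ 0 := by
        rw [Ne, map_eq_zero]
        exact hu
      have h3 : g' u * (starRingEnd ℂ) (g' u) = 1 := by
        rw [← h1, mul_inv_cancel₀ h2]
      rw [Complex.mul_conj, Complex.normSq_eq_norm_sq] at h3
      have h4 : ‖g' u‖ ^ 2 = 1 := by exact_mod_cast h3
      have h5 := norm_nonneg (g' u)
      nlinarith [h4, h5]

end Pool.Agent.L7h61.SQ
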