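import Pool.Agent.L7h62.SQ.Stm2

set_option autoImplicit false

namespace Pool.Agent.L7h61.SQ

open Module NumberField IsDedekindDomain
open Pool.Agent.TeamU (Over Unr)
open Pool.Agent.L7h62.SQ

theorem s_POS : S_POS := by
  intro F L _ _ _ _ _ hL
  haveI : Algebra.IsAlgebraic F L := Algebra.IsAlgebraic.tower_top (K := ℚ) F
  refine ⟨?_, ?_⟩
  · intro g x
    have h1 := hL (NumberField.ComplexEmbedding.lift L g) (algebraMap F L x)
    rwa [NumberField.ComplexEmbedding.lift_algebraMap_apply] at h1
  · intro φ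
    set G := NumberField.ComplexEmbedding.lift L (Complex.ofRealHom.comp φ) with hG
    have hre : ∀ x : L, ((G x).re : ℂ) = G x := by
      intro x
      apply Complex.ext
      · simp
      · simp [hL G x]
    refine ⟨{ toFun := fun x => (G x).re
              map_one' := by simp
              map_mul' := fun x y => by
                rw [map_mul, Complex.mul_re, hL G x, hL G y]; simp
              map_zero' := by simp
              map_add' := fun x y => by simp }, fun x => ?_⟩
    change (G (algebraMap F L x)).re = φ x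
    rw [hG, NumberField.ComplexEmbedding.lift_algebraMap_apply]
    simp

theorem s_TOW (hV : S_VAL) : S_TOW := by
  intro K F L _ _ _ _ _ _ _ _ _ _ P v hPv
  have hcomp : algebraMap (𝓞 K) (𝓞 L) =
      (algebraMap (𝓞 F) (𝓞 L)).comp (algebraMap (𝓞 K) (𝓞 F)) := by
    ext x
    change algebraMap K L (x : K) = algebraMap F L (algebraMap K F (x : K))
    exact IsScalarTower.algebraMap_apply K F L (x : K)
  refine ⟨?_, ?_, ?_⟩
  · intro p
    unfold Over at hPv ⊢
    rw [hcomp, ← Ideal.comap_comap, hPv]
  · intro hP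
    obtain ⟨a, ha⟩ := ((hV K L).2 P).1 hP
    refine ((hV F L).2 P).2 ⟨algebraMap K F a, ?_⟩
    rw [← IsScalarTower.algebraMap_apply K F L a]
    exact ha
  · intro hP
    obtain ⟨a, ha⟩ := ((hV K L).2 P).1 hP
    refine ((hV K F).2 v).2 ⟨a, ?_⟩
    obtain ⟨⟨e, he, hev⟩, -⟩ := (hV F L).1 P v hPv
    rw [IsScalarTower.algebraMap_apply K F L a, hev] at ha
    have hne : v.valuation F (algebraMap K F a) ≠ 0 := by
      intro h0
      rw [h0, zero_pow (by omega)] at ha
      exact WithZero.exp_ne_zero ha.symm
    obtain ⟨n, hn⟩ : ∃ n : ℤ, v.valuation F (algebraMap K F a) = WithZero.exp n :=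
      ⟨WithZero.log (v.valuation F (algebraMap K F a)), (WithZero.exp_log hne).symm⟩
    rw [hn, ← WithZero.exp_nsmul, WithZero.exp_inj, nsmul_eq_mul] at ha
    have h1 : (e : ℤ) ∣ 1 := by
      rw [← dvd_neg]; exact ⟨n, ha.symm⟩
    have h2 : (e : ℤ) = 1 := by
      have := Int.le_of_dvd one_pos h1
      omega
    rw [hn]
    congr 1
    rw [h2, one_mul] at ha
    exact ha

end Pool.Agent.L7h61.SQ
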